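import Pool.Agent.W451.UGR.CoreThm
import Pool.Agent.W451.UGR.Padic

/-!
# Uniqueness of good reductions of fusion categories

Let `p` be any prime. We prove that a fusion category over the algebraic closure of `ℚ` has at
most one good reduction modulo `p`, up to tensor equivalence.

Definitions used:

* `TensorCat R` : an `R`-linear monoidal category with `R`-bilinear tensor product;
* `TensorCat.IsSemisimpleRigid` : additive, rigid, with finitely many objects `X i` among which
  the unit, with `Hom (X i, X j) = 0` for `i ≠ j` and `Hom (X i, X i) = R`, such that each object
  is a finite direct sum of the `X i`; over a field such as the algebraic closure of `ℚ` this is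
  a fusion category;
* `TensorCat.TensorEquiv` : existence of an `R`-linear monoidal equivalence;
* `TensorCat.baseChange` : same objects, `Hom` spaces `S ⊗[R] Hom (X, Y)` (file `BC`);
* `QBarP p`, `ZBarP p`, `FBarP p` (file `Padic`) : an algebraic closure of `ℚ_[p]`, its ring of
  integers (the integral closure of `ℤ_[p]`) and the residue field of the latter.

Idea of the proof. Let `M₁`, `M₂` be two lifts over the ring of integers `O`, with simple objects
`X i` and `Y i`. An identification of the generic fibres gives isomorphisms `θ i` between the
images of `Y i` and `X i`, each determined up to a scalar. The absolute values of these scalars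
for which the comparison maps `Hom (Y l, Y i ⊗ Y j) × Hom (X i ⊗ X j, X l) → Hom (Y l, X l)` are
integral form, on the logarithmic scale, a closed convex region given by finitely many
inequalities. We take the point of this region where the sum of the exponentials of the
coordinates is minimal. Let `a i` in `O` be the scalar which compares the dualities of `X i` and
of `Y i`, and let `Q` be the set of indices such that `a i` is not a unit. The inequalities which
are equalities at the minimum define a lax comparison between the reductions modulo the maximal
ideal, for which `Q` is an ideal. A Perron-Frobenius argument shows that such an ideal is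
nilpotent; the resulting weights on `Q` provide a direction in which the minimum can be improved,
unless `Q` is empty. So all the `a i` are units, which means that the comparison is an equivalence
`M₁ ≃ M₂` of tensor categories over `O`; hence the reductions are tensor equivalent too.
-/

set_option autoImplicit false

open CategoryTheory

namespace Pool.Agent.Results.MP_21cf63_al.UniqueGoodReduction

open Pool.Agent.W451.UGR

universe v u

/-- `D` is a good reduction modulo `p` of the fusion category `C` over the algebraic closure
of `ℚ`, with respect to the embedding `ι` of the algebraic closure of `ℚ` into the algebraic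
closure of `ℚ_[p]`: the category `D` over the residue field of the ring of integers `ZBarP p` is
semisimple rigid, and there is a semisimple rigid tensor category `M` over `ZBarP p` with
`M ⊗ FBarP p ≃ D` and `M ⊗ QBarP p ≃ C ⊗ QBarP p`. (Then `C`, `M` and `D` automatically have the
same Grothendieck ring.) -/
def IsGoodReduction (p : ℕ) [Fact p.Prime] (ι : AlgebraicClosure ℚ →+* QBarP p)
    (C : TensorCat.{0, v, u} (AlgebraicClosure ℚ)) (D : TensorCat.{0, v, u} (FBarP p)) : Prop :=
  letI : Algebra (AlgebraicClosure ℚ) (QBarP p) := ι.toAlgebra
  D.IsSemisimpleRigid ∧ ∃ M : TensorCat.{0, v, u} (ZBarP p), M.IsSemisimpleRigid ∧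
    (M.baseChange (FBarP p)).TensorEquiv D ∧
    (M.baseChange (QBarP p)).TensorEquiv (C.baseChange (QBarP p))

/-- Every fusion category `C` over the algebraic closure of `ℚ` has, for every prime `p`, at most
one good reduction modulo `p` up to tensor equivalence. -/
theorem result (p : ℕ) [Fact p.Prime] (ι : AlgebraicClosure ℚ →+* QBarP p)
    (C : TensorCat.{0, v, u} (AlgebraicClosure ℚ)) (_hC : C.IsSemisimpleRigid)
    (D₁ D₂ : TensorCat.{0, v, u} (FBarP p)) (h₁ : IsGoodReduction p ι C D₁)
    (h₂ : IsGoodReduction p ι C D₂) : D₁.TensorEquiv D₂ := by
  obtain ⟨-, M₁, hM₁, r₁, g₁⟩ := h₁
  obtain ⟨-, M₂, hM₂, r₂, g₂⟩ := h₂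
  have h : M₁.TensorEquiv M₂ :=
    tensorEquiv_of_baseChange (k := FBarP p) (absP p)
      (FaithfulSMul.algebraMap_injective (ZBarP p) (QBarP p))
      (algebraMap_FBarP_surjective p) (algebraMap_FBarP_eq_zero p)
      (absP_le_one_iff' p) (isUnit_iff_absP p)
      (fun x _ n hn => absP_divisible p x n hn) (absP_nontrivial p) hM₁ hM₂ g₁ g₂
  exact (r₁.symm.trans (h.baseChange (FBarP p))).trans r₂

end Pool.Agent.Results.MP_21cf63_al.UniqueGoodReduction
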